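import Mathlib

set_option autoImplicit false

namespace Pool.Agent.H.MP_f7c330_an

open Set Filter Topology Metric MeasureTheory TopologicalSpace
open scoped Nat BoundedContinuousFunction

noncomputable section

/-- bounded sequences -/
abbrev E := ℕ →ᵇ ℂ

/-- compatible families -/
def K : Submodule ℂ (ℕ → E) where
  carrier := {F | ∀ n k, F n k = (n + 1 : ℂ) ^ k * F 0 k}
  add_mem' := fun {F G} a b n k => by simp [a n k, b n k, mul_add]
  zero_mem' := fun n k => by simp
  smul_mem' := fun c F a n k => by simp [a n k, mul_left_comm]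

theorem cl : IsClosed (K : Set (ℕ → E)) := by
  change IsClosed {F : ℕ → E | ∀ n k, F n k = (n + 1 : ℂ) ^ k * F 0 k}
  simp only [setOf_forall]
  exact isClosed_iInter fun n => isClosed_iInter fun k => isClosed_eq (by fun_prop) (by fun_prop)

/-- the space -/
def X : Type := K

instance : AddCommGroup X := inferInstanceAs (AddCommGroup K)
instance : Module ℂ X := inferInstanceAs (Module ℂ K)
instance : UniformSpace X := inferInstanceAs (UniformSpace K)
instance : IsUniformAddGroup X := K.toAddSubgroup.isUniformAddGroup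
instance : ContinuousSMul ℂ X := inferInstanceAs (ContinuousSMul ℂ K)
instance : CompleteSpace X := cl.completeSpace_coe
instance : MetrizableSpace X := MetrizableSpace.subtype (K : Set (ℕ → E))
instance : IsCountablyGenerated (uniformity X) := comap.isCountablyGenerated (uniformity (ℕ → E)) _

/-- inclusion -/
def io : X →L[ℂ] (ℕ → E) := K.subtypeL

theorem ind : IsInducing io := IsInducing.subtypeVal

instance : LocallyConvexSpace ℝ X := IsInducing.locallyConvexSpace (f := io.toLinearMap.restrictScalars ℝ) ind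

/-- projections -/
def pr (n : ℕ) : X →L[ℂ] E := (ContinuousLinearMap.proj n).comp io

/-- coordinates -/
def ev (k : ℕ) : X →L[ℂ] ℂ := (BoundedContinuousFunction.evalCLM ℂ k).comp (pr 0)

theorem pe (F : X) (n k : ℕ) : pr n F k = (n + 1 : ℂ) ^ k * ev k F := F.2 n k

theorem xt {F G : X} (h : ∀ k, ev k F = ev k G) : F = G :=
  Subtype.ext (funext fun n => BoundedContinuousFunction.ext fun k => by
    change pr n F k = pr n G k
    rw [pe, pe, h])

theorem bd (F : X) (n k : ℕ) : (n + 1 : ℝ) ^ k * ‖ev k F‖ ≤ ‖pr n F‖ := by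
  have := (pr n F).norm_coe_le_norm k
  rw [pe, norm_mul, norm_pow] at this
  convert this using 3
  exact_mod_cast (Complex.norm_natCast (n + 1)).symm

theorem nb {F : X} {n : ℕ} {C : ℝ} (h : ∀ k, (n + 1 : ℝ) ^ k * ‖ev k F‖ ≤ C) : ‖pr n F‖ ≤ C :=
  (BoundedContinuousFunction.norm_le (le_trans (by positivity) (h 0))).2 fun k => by
    rw [pe, norm_mul, norm_pow]
    convert h k using 3
    exact_mod_cast (Complex.norm_natCast (n + 1))

theorem mk (u : ℕ → ℂ) (h : ∀ n : ℕ, ∃ C, ∀ k, (n + 1 : ℝ) ^ k * ‖u k‖ ≤ C) : ∃ F : X, ∀ k, ev k F = u k := by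
  choose C hC using h
  refine ⟨⟨fun n => BoundedContinuousFunction.ofNormedAddCommGroupDiscrete (fun k => (n + 1 : ℂ) ^ k * u k) (C n)
    fun k => ?_, fun n k => by simp⟩, fun k => ?_⟩
  · rw [norm_mul, norm_pow]
    convert hC n k using 3
    exact_mod_cast (Complex.norm_natCast (n + 1))
  change ((0 : ℕ) + 1 : ℂ) ^ k * u k = u k
  simp

theorem lim {α : Type} {l : Filter α} [l.NeBot] {f : α → X} (h : ∀ n, ∃ v, Tendsto (fun a => pr n (f a)) l (𝓝 v)) :
    ∃ v, Tendsto f l (𝓝 v) := by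
  choose v hv using h
  have a : Tendsto (fun a => io (f a)) l (𝓝 v) := tendsto_pi_nhds.2 hv
  exact ⟨⟨v, cl.mem_of_tendsto a (.of_forall fun a => (f a).2)⟩, ind.tendsto_nhds_iff.2 a⟩

theorem sm {f : ℕ → X} (h : ∀ n, Summable fun j => ‖pr n (f j)‖) : Summable f := by
  refine lim fun n => ⟨∑' j, pr n (f j), ?_⟩
  simp only [map_sum]
  exact (h n).of_norm.hasSum

/-- weights -/
def w (k : ℕ) : ℝ := (k / 3)!

theorem wp (k : ℕ) : 0 < w k := by unfold w; positivity

/-- ratios -/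
def r (k j : ℕ) : ℝ := w (k + j) / (w k * j !)

theorem r0 (k j : ℕ) : 0 ≤ r k j := by
  have := wp k
  have := wp (k + j)
  unfold r
  positivity

theorem r1 (k j : ℕ) : r k j ≤ 2 ^ (k + j) := by
  have := wp k
  rw [r, div_le_iff₀ (by positivity), w, w]
  have a : ((k + j) / 3)! ≤ (k / 3 + j)! := Nat.factorial_le (by omega)
  have b := Nat.add_choose_mul_factorial_mul_factorial (k / 3) j
  have c : (k / 3 + j).choose j ≤ 2 ^ (k + j) :=
    (Nat.choose_le_two_pow _ _).trans (Nat.pow_le_pow_right (by norm_num) (by omega))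
  have : ((k + j) / 3)! ≤ 2 ^ (k + j) * ((k / 3)! * j !) := by
    rw [← b, mul_assoc] at a
    exact a.trans (Nat.mul_le_mul_right _ c)
  exact_mod_cast this

theorem sb (F : X) {n m : ℕ} (h : 2 * n + 1 ≤ m) (k j : ℕ) :
    (n + 1 : ℝ) ^ k * ‖r k j * ev (k + j) F‖ ≤ ‖pr m F‖ * (2 / (m + 1)) ^ j := by
  have a := bd F m (k + j)
  have b : (2 * (n + 1) : ℝ) ≤ m + 1 := by
    have : (2 * n + 1 : ℝ) ≤ m := by exact_mod_cast h
    linarith
  have c := pow_le_pow_left₀ (by positivity) b k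
  rw [norm_mul, Complex.norm_real, Real.norm_of_nonneg (r0 k j), div_pow, ← mul_div_assoc, le_div_iff₀ (by positivity)]
  calc (n + 1 : ℝ) ^ k * (r k j * ‖ev (k + j) F‖) * (m + 1) ^ j
      ≤ (n + 1 : ℝ) ^ k * (2 ^ (k + j) * ‖ev (k + j) F‖) * (m + 1) ^ j := by
        gcongr
        exact r1 k j
    _ = (2 * (n + 1)) ^ k * (m + 1) ^ j * ‖ev (k + j) F‖ * 2 ^ j := by rw [mul_pow]; ring
    _ ≤ (m + 1) ^ k * (m + 1) ^ j * ‖ev (k + j) F‖ * 2 ^ j := by gcongr
    _ ≤ _ := by rw [← pow_add]; gcongr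

theorem exS (j : ℕ) (F : X) : ∃ G : X, ∀ k, ev k G = r k j * ev (k + j) F :=
  mk _ fun n => ⟨_, fun k => sb F (le_refl (2 * n + 1)) k j⟩

/-- normalised shifts -/
def S (j : ℕ) (F : X) : X := (exS j F).choose

theorem hS (j : ℕ) (F : X) (k : ℕ) : ev k (S j F) = r k j * ev (k + j) F := (exS j F).choose_spec k

theorem Sb (F : X) {n m : ℕ} (h : 2 * n + 1 ≤ m) (j : ℕ) : ‖pr n (S j F)‖ ≤ ‖pr m F‖ * (2 / (m + 1)) ^ j :=
  nb fun k => by rw [hS]; exact sb F h k j

theorem Sc (n : ℕ) (R : ℝ) : ∃ m : ℕ, ∀ (F : X) (z : ℂ), ‖z‖ ≤ R → ∀ j,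
    ‖pr n (z ^ j • S j F)‖ ≤ ‖pr m F‖ * (1 / 2) ^ j := by
  obtain ⟨m, hm⟩ := exists_nat_ge (4 * R)
  refine ⟨m + (2 * n + 1), fun F z h j => ?_⟩
  rw [map_smul, norm_smul, norm_pow]
  refine (mul_le_mul_of_nonneg_left (Sb F (m := m + (2 * n + 1)) (by omega) j) (by positivity)).trans ?_
  rw [mul_left_comm, ← mul_pow]
  refine mul_le_mul_of_nonneg_left (pow_le_pow_left₀ (by positivity) ?_ j) (norm_nonneg _)
  rw [← mul_div_assoc, div_le_div_iff₀ (by positivity) (by positivity)]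
  push_cast
  nlinarith [Nat.cast_nonneg (α := ℝ) n]

theorem Ss (z : ℂ) (F : X) : Summable fun j => z ^ j • S j F := sm fun n => by
  obtain ⟨m, hm⟩ := Sc n ‖z‖
  exact .of_nonneg_of_le (fun _ => norm_nonneg _) (hm F z le_rfl) (summable_geometric_two.mul_left _)

theorem Se (z : ℂ) (F : X) (k : ℕ) :
    HasSum (fun j => z ^ j * (r k j * ev (k + j) F)) (ev k (∑' j, z ^ j • S j F)) := by
  simpa [hS] using (Ss z F).hasSum.mapL (ev k)

/-- the group, as linear maps -/
def L (z : ℂ) : X →ₗ[ℂ] X where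
  toFun F := ∑' j, z ^ j • S j F
  map_add' F G := xt fun k => by
    rw [map_add]
    refine (Se z (F + G) k).unique ?_
    simpa [mul_add] using (Se z F k).add (Se z G k)
  map_smul' c F := xt fun k => by
    rw [map_smul]
    refine (Se z (c • F) k).unique ?_
    simpa [mul_left_comm] using (Se z F k).mul_left c

theorem Lb (n : ℕ) (z : ℂ) : ∃ m, ∀ F, ‖pr n (L z F)‖ ≤ ‖pr m F‖ * 2 := by
  obtain ⟨m, hm⟩ := Sc n ‖z‖
  exact ⟨m, fun F => ((Ss z F).hasSum.mapL (pr n)).norm_le_of_bounded (hasSum_geometric_two.mul_left _)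
    (hm F z le_rfl)⟩

/-- the group -/
def T (z : ℂ) : X →L[ℂ] X where
  toLinearMap := L z
  cont := ind.continuous_iff.2 (continuous_pi fun n => by
    obtain ⟨m, hm⟩ := Lb n z
    refine continuous_of_tendsto_nhds_zero ((pr n).toLinearMap ∘ₗ L z) (squeeze_zero_norm hm ?_)
    simpa using ((pr m).continuous.tendsto 0).norm.mul_const 2)

theorem Ts (z : ℂ) (F : X) : HasSum (fun j => z ^ j • S j F) (T z F) := (Ss z F).hasSum

theorem Te (z : ℂ) (F : X) (k : ℕ) : HasSum (fun j => z ^ j * (r k j * ev (k + j) F)) (ev k (T z F)) := Se z F k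

theorem Td (F : X) (n : ℕ) (z : ℂ) : DifferentiableAt ℂ (fun z => pr n (T z F)) z := by
  obtain ⟨m, hm⟩ := Sc n (‖z‖ + 1)
  have := Complex.differentiableOn_tsum_of_summable_norm (F := fun j z => pr n (z ^ j • S j F))
    (U := ball 0 (‖z‖ + 1)) (summable_geometric_two.mul_left ‖pr m F‖)
    (fun j => by simp only [map_smul]; fun_prop) isOpen_ball fun j u h => hm F u (mem_ball_zero_iff.1 h).le j
  have e : (fun z => pr n (T z F)) = fun z => ∑' j, pr n (z ^ j • S j F) :=
    funext fun z => ((Ts z F).mapL (pr n)).tsum_eq.symm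
  rw [e]
  exact this.differentiableAt (isOpen_ball.mem_nhds (by simp))

theorem Tc (F : X) : Continuous fun z => T z F :=
  ind.continuous_iff.2 (continuous_pi fun n => Differentiable.continuous (Td F n))

theorem Th (F : X) (z : ℂ) : ∃ v, Tendsto (fun h : ℂ => h⁻¹ • (T (z + h) F - T z F)) (𝓝[≠] 0) (𝓝 v) :=
  lim fun n => ⟨_, by simpa using (Td F n z).hasDerivAt.tendsto_slope_zero⟩

end

end Pool.Agent.H.MP_f7c330_an
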