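import Mathlib
import Pool.Agent.H.MP_f7c330_an.A

set_option autoImplicit false

namespace Pool.Agent.H.MP_f7c330_an

open Set Filter Topology Metric MeasureTheory TopologicalSpace
open scoped Nat BoundedContinuousFunction

noncomputable section

theorem exD (k : ℕ) : ∃ G : X, ∀ l, ev l G = if l = k then 1 else 0 :=
  mk _ fun n => ⟨(n + 1 : ℝ) ^ k, fun l => by
    split_ifs with h
    · simp [h]
    · simp only [norm_zero, mul_zero]
      positivity⟩

/-- unit vectors -/
def dl (k : ℕ) : X := (exD k).choose

theorem hD (k l : ℕ) : ev l (dl k) = if l = k then 1 else 0 := (exD k).choose_spec l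

theorem ex (F : X) : HasSum (fun k => ev k F • dl k) F := by
  have s : Summable fun k => ev k F • dl k := sm fun n => .of_nonneg_of_le (fun _ => norm_nonneg _) (fun k => nb fun l => by
    rw [map_smul, hD]
    split_ifs with h
    · subst h
      have a := bd F (2 * n + 1) l
      rw [smul_eq_mul, mul_one, one_div, inv_pow, ← div_eq_mul_inv, le_div_iff₀ (by positivity)]
      refine le_trans (le_of_eq ?_) a
      push_cast
      rw [show (2 * n + 1 + 1 : ℝ) = (n + 1) * 2 by ring, mul_pow]
      ring
    · simp only [smul_zero, norm_zero, mul_zero]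
      positivity) (summable_geometric_two.mul_left ‖pr (2 * n + 1) F‖)
  convert s.hasSum
  refine xt fun l => HasSum.unique ?_ (s.hasSum.mapL (ev l))
  simpa [hD] using hasSum_single (f := fun k => ev l (ev k F • dl k)) l fun k h => by simp [hD, h.symm]

theorem exE (c : ℂ) : ∃ G : X, ∀ k, ev k G = c ^ k / w k :=
  mk _ fun n => ⟨((n + 1) * ‖c‖ + 1) ^ 2 * Real.exp (((n + 1) * ‖c‖ + 1) ^ 3), fun k => by
    set p := (n + 1) * ‖c‖ + 1 with hp
    have o : 1 ≤ p := le_add_of_nonneg_left (by positivity)
    have a := Real.pow_div_factorial_le_exp (p ^ 3) (by positivity) (k / 3)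
    rw [norm_div, norm_pow, Complex.norm_real, Real.norm_of_nonneg (wp k).le, ← mul_div_assoc, ← mul_pow, w]
    refine le_trans ?_ (mul_le_mul_of_nonneg_left a (by positivity))
    rw [← mul_div_assoc, ← pow_mul, ← pow_add]
    gcongr
    exact (pow_le_pow_left₀ (by positivity) (by linarith) k).trans (pow_le_pow_right₀ o (by omega))⟩

/-- exponentials -/
def e (c : ℂ) : X := (exE c).choose

theorem hE (c : ℂ) (k : ℕ) : ev k (e c) = c ^ k / w k := (exE c).choose_spec k

instance : ContinuousSMul ℝ X := ⟨by
  change Continuous fun p : ℝ × X => (p.1 : ℂ) • p.2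
  fun_prop⟩

theorem eig (z c : ℂ) : T z (e c) = Complex.exp (z * c) • e c := xt fun k => by
  refine (Te z (e c) k).unique ?_
  rw [map_smul, hE, smul_eq_mul, Complex.exp_eq_exp_ℂ]
  suffices (fun j => z ^ j * (r k j * ev (k + j) (e c))) = fun j => (z * c) ^ j / j ! * (c ^ k / w k) by
    rw [this]
    exact (NormedSpace.expSeries_div_hasSum_exp (z * c)).mul_right (c ^ k / w k)
  funext j
  have a : (w k : ℂ) ≠ 0 := mod_cast (wp k).ne'
  have b : (w (k + j) : ℂ) ≠ 0 := mod_cast (wp (k + j)).ne'
  have d := Nat.cast_ne_zero (R := ℂ).2 j.factorial_ne_zero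
  rw [hE, r]
  push_cast
  field_simp
  ring

theorem hb {W : Submodule ℂ X} (h : ∀ f : X →L[ℂ] ℂ, (∀ x ∈ W, f x = 0) → f = 0) : Dense (W : Set X) := fun x => by
  by_contra a
  obtain ⟨f, u, p, q⟩ := RCLike.geometric_hahn_banach_closed_point (𝕜 := ℂ)
    ((W.restrictScalars ℝ).convex.closure) isClosed_closure a
  have o : 0 < u := by simpa using p 0 (subset_closure W.zero_mem)
  have := h f fun y hy => by
    by_contra b
    have := p _ (subset_closure (W.smul_mem (u / f y) hy))
    rw [map_smul, smul_eq_mul, div_mul_cancel₀ _ b] at this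
    simp at this
  rw [this] at q
  simp at q
  linarith

theorem dn {W : Submodule ℂ X} {c : ℂ} (h : ∀ᶠ d in 𝓝 c, e d ∈ W) : Dense (W : Set X) := hb fun f a => by
  let p := FormalMultilinearSeries.ofScalars ℂ fun k => f (dl k) / w k
  have s : ∀ d : ℂ, HasSum (fun k => (f (dl k) / w k) * d ^ k) (f (e d)) := fun d => by
    convert (ex (e d)).mapL f using 2 with k
    rw [map_smul, hE, smul_eq_mul]
    ring
  have t : p.radius = ⊤ := p.radius_eq_top_of_summable_norm fun r => by
    have := (s r).summable.norm
    simpa [p, FormalMultilinearSeries.ofScalars_norm] using this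
  have b := p.hasFPowerSeriesOnBall (by simp [t])
  have u : p.sum = fun d => f (e d) := funext fun d => by
    rw [← (s d).tsum_eq, FormalMultilinearSeries.sum]
    simp [p, mul_comm]
  rw [u, t] at b
  have v := b.analyticOnNhd.eqOn_zero_of_preconnected_of_eventuallyEq_zero (z₀ := c)
    (by simpa using isPreconnected_univ) (by simp) (h.mono fun d q => a _ q)
  have z : p = 0 := b.hasFPowerSeriesAt.eq_zero_of_eventually (.of_forall fun d => v (by simp))
  have y : ∀ k, f (dl k) = 0 := fun k => by
    have := congrFun (FormalMultilinearSeries.ofScalars_series_eq_zero ℂ |>.1 z) k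
    simpa [(wp k).ne'] using this
  ext F
  simpa [y] using ((ex F).mapL f).tsum_eq.symm

theorem xe {f g : X →L[ℂ] X} (h : ∀ c, f (e c) = g (e c)) : f = g :=
  ContinuousLinearMap.ext_on (s := range e) (dn (c := 0) (.of_forall fun d => Submodule.subset_span (mem_range_self d)))
    (by rintro _ ⟨c, rfl⟩; exact h c)

theorem T0 : T 0 = .id ℂ X := xe fun c => by simp [eig]

theorem Ta (z u : ℂ) : T (z + u) = T z ∘L T u := xe fun c => by
  rw [eig, ContinuousLinearMap.comp_apply, eig, map_smul, eig, smul_smul, add_mul, Complex.exp_add, mul_comm]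

theorem Ti (a z : ℂ) (n : ℕ) (x : X) : (⇑(a • T z))^[n] x = a ^ n • T (n * z) x := by
  induction n with
  | zero => simp [T0]
  | succ n ih =>
    rw [Function.iterate_succ_apply', ih]
    simp [add_mul, add_comm (n * z), Ta, smul_smul, pow_succ]

/-- vectors sent to zero -/
def W (a z : ℂ) : Submodule ℂ X where
  carrier := {u | Tendsto (fun n : ℕ => a ^ n • T (n * z) u) atTop (𝓝 0)}
  add_mem' := fun a b => by simpa using a.add b
  zero_mem' := by simp
  smul_mem' := fun s x b => by
    have := b.const_smul s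
    simp only [smul_zero] at this
    exact this.congr fun n => by rw [map_smul, smul_comm]

theorem mix (a : ℂ) {z : ℂ} (h : z ≠ 0) : Dense (W a z : Set X) := by
  have o : IsOpen {d : ℂ | ‖a * Complex.exp (z * d)‖ < 1} := isOpen_lt (by fun_prop) continuous_const
  refine dn (c := -‖a‖ / z) (mem_of_superset (o.mem_nhds ?_) fun d q => ?_)
  · rw [mem_setOf_eq, mul_div_cancel₀ _ h, norm_mul, Complex.norm_exp]
    simp only [Complex.neg_re, Complex.ofReal_re]
    rw [Real.exp_neg, ← div_eq_mul_inv, div_lt_one (Real.exp_pos _)]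
    linarith [Real.add_one_le_exp ‖a‖]
  have := (tendsto_pow_atTop_nhds_zero_of_norm_lt_one q).smul_const (e d)
  rw [zero_smul] at this
  exact this.congr fun n => by rw [eig, smul_smul, mul_pow, ← Complex.exp_nat_mul, mul_assoc]

theorem hyp {a z : ℂ} (g : a ≠ 0) (h : z ≠ 0) : ∃ y, Dense (range fun n => (⇑(a • T z))^[n] y) := by
  have : SeparableSpace X := isSeparable_univ_iff.1 (((countable_range dl).isSeparable.span (R := ℂ)).closure.mono
    fun x _ => mem_closure_of_tendsto (ex x) (.of_forall fun s => Submodule.sum_mem _ fun n _ =>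
      Submodule.smul_mem _ _ (Submodule.subset_span (mem_range_self n))))
  have : SecondCountableTopology X := UniformSpace.secondCountable_of_separable X
  obtain ⟨y, b⟩ := (dense_biInter_of_isOpen (f := fun V => ⋃ n : ℕ, (a ^ n • T (n * z)) ⁻¹' V)
    (fun V a => isOpen_iUnion fun n => (isOpen_of_mem_countableBasis a).preimage (ContinuousLinearMap.continuous _))
    (countable_countableBasis X) fun V a' => dense_iff_inter_open.2 fun U b c => by
      obtain ⟨u, p, r⟩ := (mix a h).inter_open_nonempty U b c
      have o := isOpen_of_mem_countableBasis a'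
      obtain ⟨v, s, l⟩ := (mix a⁻¹ (neg_ne_zero.2 h)).inter_open_nonempty V o (nonempty_of_mem_countableBasis a')
      obtain ⟨n, i, j⟩ := ((((tendsto_const_nhds (x := u)).add l).eventually_mem (b.mem_nhds (by simpa))).and
        ((Tendsto.add r (tendsto_const_nhds (x := v))).eventually_mem (o.mem_nhds (by simpa)))).exists
      exact ⟨_, i, mem_iUnion.2 ⟨n, by
        simpa [← ContinuousLinearMap.comp_apply, ← Ta, T0, smul_smul, g] using j⟩⟩).nonempty
  refine ⟨y, (isBasis_countableBasis X).dense_iff.2 fun V q _ => ?_⟩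
  obtain ⟨n, c⟩ := mem_iUnion.1 (mem_iInter₂.1 b V q)
  exact ⟨_, c, n, Ti ..⟩

end

end Pool.Agent.H.MP_f7c330_an
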