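import Mathlib
import Pool.Agent.H.MP_f7c330_an.B

set_option autoImplicit false

namespace Pool.Agent.H.MP_f7c330_an

open Set Filter Topology Metric MeasureTheory TopologicalSpace
open scoped Nat BoundedContinuousFunction

noncomputable section

theorem cnt {c : ℂ} {r : ℝ} (h : 0 < r) (s : Finset ℂ) {g : ℂ → ℂ} {M : ℝ} (d : Differentiable ℂ g)
    (a : ∀ z ∈ s, g z = 0 ∧ ‖z - c‖ ≤ r) (b : ∀ z ∈ sphere c (3 * r), ‖g z‖ ≤ M) : 2 ^ s.card * ‖g c‖ ≤ M := by
  classical
  induction s using Finset.induction_on generalizing g M with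
  | empty =>
    simpa using Complex.norm_le_of_forall_mem_frontier_norm_le (U := ball c (3 * r)) isBounded_ball d.diffContOnCl
      (by rwa [frontier_ball c (by positivity)]) (subset_closure (mem_ball_self (by positivity)))
  | insert u s n ih =>
    have p := a u (by simp)
    have q : ∀ z, g z = (z - u) * dslope g u z := fun z => by simpa [p.1] using (sub_smul_dslope g u z).symm
    have := ih (g := dslope g u) (M := M / (2 * r)) (differentiableOn_univ.1 ((Complex.differentiableOn_dslope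
      univ_mem).2 d.differentiableOn)) (fun z t => ⟨(mul_eq_zero.1 ((q z).symm.trans (a z (by simp [t])).1)).resolve_left
      (sub_ne_zero.2 fun l => n (l ▸ t)), (a z (by simp [t])).2⟩) fun z t => by
        have := b z t
        rw [q, norm_mul] at this
        rw [le_div_iff₀' (by positivity)]
        refine le_trans (mul_le_mul_of_nonneg_right ?_ (norm_nonneg _)) this
        linarith [mem_sphere_iff_norm.1 t, p.2, norm_sub_le_norm_sub_add_norm_sub z u c]
    rw [le_div_iff₀ (by positivity)] at this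
    rw [Finset.card_insert_of_notMem n, q, norm_mul, norm_sub_rev, pow_succ]
    nlinarith [mul_le_mul_of_nonneg_right p.2 (show 0 ≤ 2 ^ s.card * ‖dslope g u c‖ by positivity)]

theorem Tb (F : X) {z : ℂ} {s : ℝ} (o : 1 ≤ s) (h : 2 * ‖z‖ ≤ s ^ 2) :
    ‖ev 0 (T z F)‖ ≤ 4 * ‖pr 0 F‖ * Real.exp (2 * s ^ 3) := by
  refine ((Te z F 0).norm_le_of_bounded (hasSum_geometric_two.mul_left (2 * ‖pr 0 F‖ * Real.exp (2 * s ^ 3)))
    fun j => ?_).trans_eq (by ring)
  have a : ‖ev j F‖ ≤ ‖pr 0 F‖ := by simpa using bd F 0 j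
  have b := Real.pow_div_factorial_le_exp (s ^ 3) (by positivity) (2 * (j / 3))
  have c := Real.pow_div_factorial_le_exp (s ^ 3) (by positivity) 2
  have d : (j / 3)! * (2 * (j / 3))! ≤ j ! :=
    (Nat.le_of_dvd (Nat.factorial_pos _) (Nat.factorial_mul_factorial_dvd_factorial_add _ _)).trans
      (Nat.factorial_le (by omega))
  have d' : r 0 j ≤ ((2 * (j / 3))! : ℝ)⁻¹ := by
    rw [r, w, w, zero_add, ← one_div, div_le_div_iff₀ (by positivity) (by positivity)]
    simpa using (mod_cast d : ((j / 3)! * (2 * (j / 3))! : ℝ) ≤ j !)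
  have g : (2 * ‖z‖) ^ j ≤ (s ^ 3) ^ 2 * (s ^ 3) ^ (2 * (j / 3)) := by
    refine (pow_le_pow_left₀ (by positivity) h j).trans ?_
    rw [← pow_mul, ← pow_add, ← pow_mul]
    exact pow_le_pow_right₀ o (by omega)
  rw [zero_add, norm_mul, norm_mul, norm_pow, Complex.norm_real, Real.norm_of_nonneg (r0 0 j), one_div, inv_pow,
    ← div_eq_mul_inv, le_div_iff₀ (by positivity), two_mul (s ^ 3), Real.exp_add]
  calc ‖z‖ ^ j * (r 0 j * ‖ev j F‖) * 2 ^ j = (2 * ‖z‖) ^ j * r 0 j * ‖ev j F‖ := by rw [mul_pow]; ring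
    _ ≤ ((s ^ 3) ^ 2 * (s ^ 3) ^ (2 * (j / 3))) * ((2 * (j / 3))! : ℝ)⁻¹ * ‖pr 0 F‖ := by
      have := r0 0 j
      gcongr
    _ = 2 * ‖pr 0 F‖ * ((s ^ 3) ^ 2 / (2 : ℕ)! * ((s ^ 3) ^ (2 * (j / 3)) / (2 * (j / 3))!)) := by
      simp only [Nat.factorial_two]
      push_cast
      ring
    _ ≤ _ := by gcongr

theorem T1 (s : ℂ) : ev 0 (T s (dl 1)) = s := by
  refine (Te s (dl 1) 0).unique ?_
  simpa [hD, r, w] using hasSum_single (f := fun j => s ^ j * (r 0 j * ev (0 + j) (dl 1))) 1 fun j h => by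
    simp [hD, h]

theorem zero {v : X} (h : ‖pr 0 (v - dl 1)‖ < (16 * Real.exp 16)⁻¹) :
    ∃ s, ‖s‖ ≤ 1 ∧ ev 0 (T s v) = 0 ∧ 0 < ‖ev 0 (T (s + 1) v)‖ ∧ |Real.log ‖ev 0 (T (s + 1) v)‖| ≤ 1 := by
  have a : ∀ s, ‖s‖ ≤ 2 → ‖ev 0 (T s v) - s‖ < 1 / 4 := fun s p => by
    have := Tb (v - dl 1) (z := s) (s := 2) (by norm_num) (by linarith)
    rw [map_sub, map_sub, T1, show (2 * 2 ^ 3 : ℝ) = 16 by norm_num] at this
    rw [← one_div, lt_div_iff₀ (by positivity)] at h
    linarith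
  obtain ⟨s, p, q⟩ : ∃ s, ‖s‖ ≤ 1 ∧ ev 0 (T s v) = 0 := by
    by_contra! n
    have d : ∀ s, DifferentiableAt ℂ (fun s => ev 0 (T s v)) s :=
      fun s => ((BoundedContinuousFunction.evalCLM ℂ 0).differentiableAt.comp s (Td v 0 s) :)
    have := Complex.norm_le_of_forall_mem_frontier_norm_le (f := fun s => (ev 0 (T s v))⁻¹) (C := 2) isBounded_ball
      (DifferentiableOn.diffContOnCl fun s p => ((d s).inv (n s (by
        simpa [closure_ball (0 : ℂ) one_ne_zero] using p))).differentiableWithinAt)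
      (fun s p => by
        have q : ‖s‖ = 1 := by simpa [frontier_ball] using p
        rw [norm_inv, inv_le_comm₀ (norm_pos_iff.2 (n s q.le)) two_pos]
        linarith [a s (by linarith), norm_sub_norm_le s (ev 0 (T s v)), norm_sub_rev s (ev 0 (T s v))])
      (subset_closure (mem_ball_self (x := (0 : ℂ)) one_pos))
    rw [norm_inv, inv_le_comm₀ (norm_pos_iff.2 (n 0 (by simp))) two_pos] at this
    linarith [a 0 (by simp), show ‖ev 0 (T 0 v) - 0‖ = ‖ev 0 (T 0 v)‖ by simp]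
  refine ⟨s, p, q, ?_⟩
  have b := a s (by linarith)
  rw [q, zero_sub, norm_neg] at b
  have c := a (s + 1) ((norm_add_le _ _).trans (by simp; linarith))
  generalize ev 0 (T (s + 1) v) = t at c ⊢
  have u : ‖t - 1‖ < 1 / 2 := by
    linarith [norm_add_le (t - (s + 1)) s, show t - (s + 1) + s = t - 1 by ring,
      show ‖t - (s + 1) + s‖ = ‖t - 1‖ by congr 1; ring]
  have x := abs_lt.1 ((abs_norm_sub_norm_le t 1).trans_lt u)
  rw [norm_one] at x
  have y := Real.log_le_sub_one_of_pos (show 0 < ‖t‖ by linarith)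
  have y' := Real.one_sub_inv_le_log_of_pos (show 0 < ‖t‖ by linarith)
  have : ‖t‖⁻¹ ≤ 2 := by rw [inv_le_comm₀ (by linarith) two_pos]; linarith
  exact ⟨by linarith, abs_le.2 ⟨by linarith, by linarith⟩⟩

theorem ds {x u n t : ℝ} (p : |u| ≤ 1) (o : 4 ≤ n) (h : |t * (u + n) - x| ≤ 2) : dist t (x / (u + n)) ≤ 4 / n := by
  have x' := abs_le.1 p
  have v : 0 < u + n := by linarith
  rw [Real.dist_eq, show t - _ = (t * (u + n) - x) / (u + n) by field_simp, abs_div, abs_of_pos v,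
    div_le_div_iff₀ v (by linarith)]
  nlinarith

theorem nc (y : X) : ∃ a ≠ (0 : ℂ), ∃ z ≠ 0, ¬Dense (range fun n => (⇑(a • T z))^[n] y) := by
  have k : ∀ (b : ℝ) z, Dense (range fun n => (⇑((Real.exp b : ℂ) • T z))^[n] y) → ∀ N : ℕ, ∃ n ≥ N, ∃ s, ‖s‖ ≤ 1 ∧
      ev 0 (T (s + n * z) y) = 0 ∧ |n * b + Real.log ‖ev 0 (T (s + n * z + 1) y)‖| ≤ 1 :=
    fun b z h N => by
      have : Nontrivial X := ⟨dl 0, 0, fun h => by simpa [hD] using congrArg (ev 0) h⟩
      have := Module.punctured_nhds_neBot ℂ X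
      obtain ⟨_, a, ⟨n, rfl⟩, c⟩ := (h.sdiff_finite ((finite_lt_nat N).image
        fun n => (⇑((Real.exp b : ℂ) • T z))^[n] y)).inter_open_nonempty
        {v | ‖pr 0 (v - dl 1)‖ < (16 * Real.exp 16)⁻¹} (isOpen_lt (by fun_prop) continuous_const)
        ⟨dl 1, by simp [Real.exp_pos]⟩
      obtain ⟨s, p, q, u', u⟩ := zero a
      simp only [Ti, map_smul, ← ContinuousLinearMap.comp_apply (T _), ← Ta, smul_eq_mul] at q u u'
      refine ⟨n, not_lt.1 fun c' => c ⟨n, c', rfl⟩, s, p, (mul_eq_zero.1 q).resolve_left (by simp), ?_⟩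
      rw [norm_mul, norm_pow, Complex.norm_real, Real.norm_of_nonneg (Real.exp_pos _).le, add_right_comm] at u u'
      by_cases g : ‖ev 0 (T (s + n * z + 1) y)‖ = 0
      · simp [g] at u'
      rwa [Real.log_mul (by positivity) g, Real.log_pow, Real.log_exp] at u
  by_contra! h
  obtain ⟨c, hc⟩ : ∃ c, ev 0 (T c y) ≠ 0 := by
    by_contra! a
    obtain ⟨_, p, n, rfl⟩ := (h 1 one_ne_zero 1 one_ne_zero).inter_open_nonempty _ (isOpen_ne_fun (ev 0).continuous
      continuous_const) ⟨dl 0, (by simp [hD] : ev 0 (dl 0) ≠ 0)⟩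
    exact p (by simp only [Ti]; simp [a])
  have g := norm_pos_iff.2 hc
  set R := 9 + ‖c‖ with hR
  have r : 0 < R := by positivity
  obtain ⟨L, hL⟩ := pow_unbounded_of_one_lt ((4 * ‖pr 0 y‖ / ‖ev 0 (T c y)‖ + 1) * Real.exp (2 * R ^ 3)) one_lt_two
  let Z := fun j : ℕ => {a | ev 0 (T a y) = 0 ∧ ‖a - c‖ ≤ R * 4 ^ j}
  have z : ∀ j, (Z j).encard ≤ (L * 8 ^ j : ℕ) := fun j => by
    by_contra a
    obtain ⟨t, p, q⟩ := exists_subset_encard_eq (not_le.1 a).le
    lift t to Finset ℂ using finite_of_encard_eq_coe q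
    have f : (1 : ℝ) ≤ 4 ^ j := one_le_pow₀ (by norm_num)
    have f' : (1 : ℝ) ≤ 2 ^ j := one_le_pow₀ (by norm_num)
    have := cnt (g := fun z => ev 0 (T z y)) (c := c) (r := R * 4 ^ j) (M := 4 * ‖pr 0 y‖ * Real.exp (2 * R ^ 3) ^ 8 ^ j)
      (by positivity) t (fun s => ((BoundedContinuousFunction.evalCLM ℂ 0).differentiableAt.comp s (Td y 0 s) :)) p
      fun u v => (Tb y (s := R * 2 ^ j) (by nlinarith [norm_nonneg c]) (by
        have := norm_le_norm_add_norm_sub' u c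
        rw [mem_sphere_iff_norm.1 v] at this
        rw [mul_pow, ← pow_mul, mul_comm j, pow_mul]
        norm_num
        nlinarith [norm_nonneg c, mul_le_mul_of_nonneg_left f (norm_nonneg c), mul_pos r (show (0 : ℝ) < 4 ^ j by positivity)])).trans_eq (by
        rw [← Real.exp_nat_mul, mul_pow, ← pow_mul, mul_comm j, pow_mul]
        congr 2
        push_cast
        ring)
    rw [show t.card = L * 8 ^ j from Nat.cast_injective (R := ℕ∞) (by rw [← q, encard_coe_eq_coe_finsetCard]), pow_mul,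
      ← le_div_iff₀ g, mul_div_right_comm] at this
    have b := pow_lt_pow_left₀ hL (by positivity) (show 8 ^ j ≠ 0 by positivity)
    rw [mul_pow] at b
    have := le_self_pow₀ (show 1 ≤ 4 * ‖pr 0 y‖ / ‖ev 0 (T c y)‖ + 1 from le_add_of_nonneg_left (by positivity))
      (show 8 ^ j ≠ 0 by positivity)
    nlinarith [show 0 < Real.exp (2 * R ^ 3) ^ 8 ^ j by positivity]
  have m : ∑' j, volume (⋃ a ∈ Z j, closedBall (a.im / a.re) (4 / 4 ^ j) ×ˢ
      closedBall (-Real.log ‖ev 0 (T (a + 1) y)‖ / a.re) (4 / 4 ^ j)) ≠ ⊤ := by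
    refine ne_top_of_le_ne_top ?_ (ENNReal.tsum_le_tsum (g := fun j => ENNReal.ofReal (64 * L * (1 / 2) ^ j)) fun j =>
      (measure_biUnion_le _ (finite_of_encard_le_coe (z j)).countable _).trans ?_)
    · exact (summable_geometric_two.mul_left _).tsum_ofReal_ne_top
    simp only [Measure.volume_eq_prod, Measure.prod_prod, Real.volume_closedBall, ENNReal.tsum_set_const]
    refine (mul_le_mul_left (ENat.toENNReal_le.2 (z j)) _).trans_eq ?_
    rw [ENat.toENNReal_coe, ← ENNReal.ofReal_natCast, ← ENNReal.ofReal_mul (by positivity),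
      ← ENNReal.ofReal_mul (by positivity), show (4 : ℝ) ^ j = 2 ^ j * 2 ^ j by rw [← mul_pow]; norm_num]
    congr 1
    rw [one_div, inv_pow]
    push_cast
    rw [show (8 : ℝ) ^ j = 2 ^ j * 2 ^ j * 2 ^ j by rw [← mul_pow, ← mul_pow]; norm_num]
    field_simp
    ring
  obtain ⟨⟨τ, β⟩, ⟨t, t'⟩, b⟩ := Measure.exists_mem_of_measure_ne_zero_of_ae (s := Icc (0 : ℝ) 1 ×ˢ Icc (0 : ℝ) 1)
    (by rw [Measure.volume_eq_prod, Measure.prod_prod]; simp) (ae_restrict_of_ae (ae_eventually_notMem m))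
  obtain ⟨N, b⟩ := eventually_atTop.1 b
  obtain ⟨n, p, s, q, u, u'⟩ := k β (1 + τ * .I) (h _ (by simp) _ fun l => by simpa using congrArg Complex.re l)
    (4 ^ (N + 1))
  have o : 4 ≤ n := le_trans (Nat.le_self_pow (by simp) 4) p
  have l : (4 : ℝ) ^ Nat.log 4 n ≤ n := mod_cast Nat.pow_log_le_self 4 (by omega)
  have i : (n : ℝ) < 4 ^ (Nat.log 4 n + 1) := mod_cast Nat.lt_pow_succ_log_self (by norm_num) n
  have f : (1 : ℝ) ≤ 4 ^ Nat.log 4 n := one_le_pow₀ (by norm_num)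
  have o' : (4 : ℝ) ≤ n := mod_cast o
  have x := (Complex.abs_re_le_norm s).trans q
  have x' := abs_le.1 ((Complex.abs_im_le_norm s).trans q)
  have x'' := abs_le.1 x
  have e' := div_le_div_of_nonneg_left (show (0 : ℝ) ≤ 4 by norm_num) (by positivity) l
  refine b (Nat.log 4 n) (by linarith [Nat.le_log_of_pow_le (by norm_num) p]) (mem_iUnion₂.2 ⟨_, ⟨u, ?_⟩, ?_, ?_⟩)
  · have : ‖1 + τ * Complex.I‖ ≤ 2 := (norm_add_le _ _).trans (by simp [abs_of_nonneg t.1]; linarith [t.2])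
    have := (norm_sub_le _ c).trans (add_le_add_left (norm_add_le s (n * (1 + τ * Complex.I))) _)
    rw [norm_mul, Complex.norm_natCast] at this
    rw [pow_succ] at i
    nlinarith [norm_nonneg c]
  · simpa using (ds (x := s.im + n * τ) (t := τ) x o' (abs_le.2 (by
      constructor <;> nlinarith [t.1, t.2]))).trans e'
  have u'' := abs_le.1 u'
  simpa using (ds (x := -Real.log ‖ev 0 (T (s + n * (1 + τ * .I) + 1) y)‖) (t := β) x o' (abs_le.2 (by
      constructor <;> nlinarith [t'.1, t'.2]))).trans e'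

end

end Pool.Agent.H.MP_f7c330_an
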